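import Pool.Agent.helper62.VQ.SpecE
import Pool.Agent.helper62.RS.All

/-!
# Row FDK of project VQ, block 5 (MP_07c750_an): invariant sets
-/

set_option autoImplicit false

open scoped MatrixGroups ContDiff Topology UpperHalfPlane
open UpperHalfPlane MeasureTheory Filter Set

namespace Pool.Agent.VQE

open Pool.Agent.RS

theorem FDK_cont : Continuous fun g : SL(2, ℝ) => g • I := isProperMap_smul_I.continuous

theorem FDK_meas {F : Set ℍ} (hF : MeasurableSet F) : MeasurableSet (dG F) :=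
  FDK_cont.measurable hF

theorem FDK_main (hGLI : GLI_stmt) : FDK_stmt := by
  intro Γ F K hΓ hF hK
  obtain ⟨K1, hK1, hFK1⟩ := hF.rel
  have hKH : IsCompact ((fun g : SL(2, ℝ) => g • I) '' K) := hK.image FDK_cont
  have hfin := hΓ.discrete _ (hKH.union hK1)
  set S : Finset Γ := hfin.toFinset with hS
  refine ⟨S.card, fun A hA hAi => ?_⟩
  have hcov : A ∩ K ⊆ ⋃ γ ∈ S, (fun g : SL(2, ℝ) => (γ : SL(2, ℝ)) * g) ⁻¹' (A ∩ dG F) := by
    rintro g ⟨hgA, hgK⟩
    obtain ⟨γ, hγ, -⟩ := hF.uniq (g • I)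
    have hγS : γ ∈ S := by
      rw [hS, Set.Finite.mem_toFinset]
      exact ⟨g • I, Or.inl ⟨g, hgK, rfl⟩, Or.inr (hFK1 hγ)⟩
    rw [Set.mem_iUnion₂]
    refine ⟨γ, hγS, (hAi γ g).2 hgA, ?_⟩
    change ((γ : SL(2, ℝ)) * g) • I ∈ F
    rw [mul_smul]
    exact hγ
  refine (measure_mono hcov).trans ((measure_biUnion_finset_le S _).trans ?_)
  have hm : ∀ γ ∈ S, mG ((fun g : SL(2, ℝ) => (γ : SL(2, ℝ)) * g) ⁻¹' (A ∩ dG F)) = mG (A ∩ dG F) := by
    intro γ _
    have h1 : Measurable (fun g : SL(2, ℝ) => (γ : SL(2, ℝ)) * g) :=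
      (continuous_const.mul continuous_id).measurable
    rw [← Measure.map_apply h1 (hA.inter (FDK_meas hF.meas)), hGLI]
  rw [Finset.sum_congr rfl hm, Finset.sum_const, nsmul_eq_mul]

theorem FDK_proof : FDK_stmt := FDK_main A_GLI

end Pool.Agent.VQE
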